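import Pool.Agent.CIC.Defs

/-!
# The charts: evaluation of forms, homomorphisms, base change, localisation

All statements are direct: `form_eval` is the definition, `Chart.lift` is `Ideal.Quotient.liftₐ` of
`MvPolynomial.aeval z`, `Chart.baseChange` is composed from `MvPolynomial.algebraTensorAlgEquiv` and
`Algebra.TensorProduct.quotIdealMapEquivTensorQuot` (or build both directions with `Chart.lift` and
`Algebra.TensorProduct.lift`, and check on generators), `Chart.isLoc` from
`IsLocalization` of a base change or directly.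
-/

namespace Pool.Agent.CIC

open scoped TensorProduct
open MvPolynomial

section

variable {S : Type} [CommRing S] {c : ℕ} {d : Fin c → ℕ}

theorem form_map {T : Type} [CommRing T] (f : S →+* T) (a : Idx d → S) (i : Fin c) :
    (form a i).map f = form (fun m => f (a m)) i := by
  simp [form, map_sum, map_mul, map_prod, map_pow]

theorem form_eval (a : Idx d → S) (i : Fin c) (x : Fin (c + 2) → S) :
    eval x (form a i) = ∑ α : Mon c (d i), a ⟨i, α⟩ * ∏ l, x l ^ α.1 l := by
  simp [form, map_sum, map_mul, map_prod, map_pow]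

theorem form_eval₂ {T : Type} [CommRing T] (f : S →+* T) (a : Idx d → S) (i : Fin c)
    (x : Fin (c + 2) → T) : eval₂ f x (form a i) = eval x (form (fun m => f (a m)) i) := by
  rw [← form_map, eval_map]

theorem form_aeval {T : Type} [CommRing T] [Algebra S T] (a : Idx d → S) (i : Fin c)
    (x : Fin (c + 2) → T) :
    aeval x (form a i) = eval x (form (fun m => algebraMap S T (a m)) i) := by
  rw [aeval_def, form_eval₂]

/-- Homogeneity. -/
theorem form_smul (a : Idx d → S) (i : Fin c) (s : S) (x : Fin (c + 2) → S) :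
    eval (fun l => s * x l) (form a i) = s ^ d i * eval x (form a i) := by
  rw [form_eval, form_eval, Finset.mul_sum]
  refine Finset.sum_congr rfl fun α _ => ?_
  have h : ∏ l, (s * x l) ^ α.1 l = s ^ d i * ∏ l, x l ^ α.1 l := by
    simp only [mul_pow, Finset.prod_mul_distrib]
    rw [Finset.prod_pow_eq_pow_sum, α.2]
  rw [h]
  ring

theorem form_isHomogeneous (a : Idx d → S) (i : Fin c) : (form a i).IsHomogeneous (d i) := by
  refine IsHomogeneous.sum _ _ _ fun α _ => ?_
  refine IsHomogeneous.C_mul ?_ _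
  have h := IsHomogeneous.prod (R := S) Finset.univ (fun l : Fin (c + 2) => X l ^ α.1 l) (fun l => α.1 l)
    (fun l _ => isHomogeneous_X_pow l (α.1 l))
  rwa [α.2] at h

/-- Euler's identity. -/
theorem form_euler (a : Idx d → S) (i : Fin c) :
    ∑ l, X l * pderiv l (form a i) = (d i : MvPolynomial (Fin (c + 2)) S) * form a i := by
  rw [(form_isHomogeneous a i).sum_X_mul_pderiv, nsmul_eq_mul]

theorem form_mapRange_hom {T : Type} [CommRing T] (f : S →+* T) (a : Idx d → S) (i : Fin c)
    (x : Fin (c + 2) → S) : f (eval x (form a i)) =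
      eval (fun l => f (x l)) (form (fun m => f (a m)) i) := by
  simp only [form_eval, map_sum, map_mul, map_prod, map_pow]

/-- The coordinate functions on the chart. -/
noncomputable def gen (a : Idx d → S) (p l : Fin (c + 2)) : Chart a p :=
  Ideal.Quotient.mk (chartIdeal a p) (X l)

theorem gen_self (a : Idx d → S) (p : Fin (c + 2)) : gen a p p = 1 := by
  unfold gen
  rw [← map_one (Ideal.Quotient.mk (chartIdeal a p)), Ideal.Quotient.eq]
  exact Ideal.subset_span (Or.inr rfl)

private theorem ChartB_mk (a : Idx d → S) (p : Fin (c + 2)) (P : MvPolynomial (Fin (c + 2)) S) :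
    aeval (gen a p) P = Ideal.Quotient.mk (chartIdeal a p) P := by
  have h : aeval (gen a p) = Ideal.Quotient.mkₐ S (chartIdeal a p) := by
    apply MvPolynomial.algHom_ext
    intro l
    rw [aeval_X]
    rfl
  rw [h]
  rfl

theorem gen_form (a : Idx d → S) (p : Fin (c + 2)) (i : Fin c) :
    eval (gen a p) (form (fun m => algebraMap S (Chart a p) (a m)) i) = 0 := by
  rw [← form_aeval, ChartB_mk, Ideal.Quotient.eq_zero_iff_mem]
  exact Ideal.subset_span (Or.inl ⟨i, rfl⟩)

theorem adjoin_gen (a : Idx d → S) (p : Fin (c + 2)) :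
    Algebra.adjoin S (Set.range (gen a p)) = ⊤ := by
  rw [Algebra.adjoin_range_eq_range_aeval, AlgHom.range_eq_top]
  intro y
  obtain ⟨P, rfl⟩ := Ideal.Quotient.mk_surjective y
  exact ⟨P, ChartB_mk a p P⟩

instance (a : Idx d → S) (p : Fin (c + 2)) : Algebra.FiniteType S (Chart a p) :=
  Algebra.FiniteType.of_surjective (Ideal.Quotient.mkₐ S (chartIdeal a p))
    (Ideal.Quotient.mkₐ_surjective _ _)

section lift

variable {T : Type} [CommRing T] [Algebra S T] (a : Idx d → S) (p : Fin (c + 2))

/-- A solution gives a homomorphism. -/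
noncomputable def Chart.lift (z : Fin (c + 2) → T) (hz : z p = 1)
    (h : ∀ i, eval z (form (fun m => algebraMap S T (a m)) i) = 0) : Chart a p →ₐ[S] T :=
  Ideal.Quotient.liftₐ (chartIdeal a p) (aeval z) (by
    intro P hP
    have hle : chartIdeal a p ≤ RingHom.ker (aeval z : MvPolynomial (Fin (c + 2)) S →ₐ[S] T) := by
      unfold chartIdeal
      rw [Ideal.span_le]
      rintro Q (⟨i, rfl⟩ | rfl)
      · rw [SetLike.mem_coe, RingHom.mem_ker, form_aeval]
        exact h i
      · rw [SetLike.mem_coe, RingHom.mem_ker, map_sub, aeval_X, map_one, hz, sub_self]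
    exact hle hP)

theorem Chart.lift_gen (z : Fin (c + 2) → T) (hz : z p = 1)
    (h : ∀ i, eval z (form (fun m => algebraMap S T (a m)) i) = 0) (l : Fin (c + 2)) :
    Chart.lift a p z hz h (gen a p l) = z l := by
  unfold Chart.lift gen
  rw [Ideal.Quotient.liftₐ_apply, Ideal.Quotient.lift_mk]
  exact aeval_X _ _

theorem Chart.algHom_ext {f g : Chart a p →ₐ[S] T} (h : ∀ l, f (gen a p l) = g (gen a p l)) :
    f = g := by
  apply Ideal.Quotient.algHom_ext
  apply MvPolynomial.algHom_ext
  exact h

theorem Chart.hom_one (f : Chart a p →ₐ[S] T) : f (gen a p p) = 1 := by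
  rw [gen_self, map_one]

theorem Chart.hom_form (f : Chart a p →ₐ[S] T) (i : Fin c) :
    eval (fun l => f (gen a p l)) (form (fun m => algebraMap S T (a m)) i) = 0 := by
  have h := congrArg f (gen_form a p i)
  rw [map_zero] at h
  have h2 := form_mapRange_hom (f : Chart a p →+* T) (fun m => algebraMap S (Chart a p) (a m)) i
    (gen a p)
  have h3 : (fun m => (f : Chart a p →+* T) (algebraMap S (Chart a p) (a m))) =
      fun m => algebraMap S T (a m) := by
    funext m
    exact f.commutes (a m)
  rw [h3] at h2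
  rw [← h]
  exact h2.symm

private theorem ChartB_tensor (m : Idx d) :
    (algebraMap S T (a m)) ⊗ₜ[S] (1 : Chart a p) = (1 : T) ⊗ₜ[S] (algebraMap S (Chart a p) (a m)) := by
  rw [Algebra.algebraMap_eq_smul_one, Algebra.algebraMap_eq_smul_one, TensorProduct.smul_tmul]

private noncomputable def ChartB_fwd :
    T ⊗[S] Chart a p →ₐ[T] Chart (fun m => algebraMap S T (a m)) p :=
  Algebra.TensorProduct.lift (Algebra.ofId T (Chart (fun m => algebraMap S T (a m)) p))
    (Chart.lift a p (gen (fun m => algebraMap S T (a m)) p) (gen_self _ p) (fun i => by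
      exact gen_form (fun m => algebraMap S T (a m)) p i)) (fun _ _ => Commute.all _ _)

private noncomputable def ChartB_bwd :
    Chart (fun m => algebraMap S T (a m)) p →ₐ[T] T ⊗[S] Chart a p :=
  Chart.lift (fun m => algebraMap S T (a m)) p (fun l => (1 : T) ⊗ₜ[S] gen a p l)
    (by rw [gen_self]; rfl) (fun i => by
      have h := form_mapRange_hom (S := Chart a p) (T := T ⊗[S] Chart a p)
        (Algebra.TensorProduct.includeRight : Chart a p →ₐ[S] T ⊗[S] Chart a p).toRingHom
          (fun m => algebraMap S (Chart a p) (a m)) i (gen a p)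
      rw [gen_form, map_zero] at h
      rw [h]
      congr 2
      funext m
      exact ChartB_tensor a p m)

private theorem ChartB_fwd_gen (l : Fin (c + 2)) : ChartB_fwd (T := T) a p ((1 : T) ⊗ₜ[S] gen a p l) =
    gen (fun m => algebraMap S T (a m)) p l := by
  unfold ChartB_fwd
  rw [Algebra.TensorProduct.lift_tmul, map_one, one_mul, Chart.lift_gen]

private theorem ChartB_bwd_gen (l : Fin (c + 2)) :
    ChartB_bwd (T := T) a p (gen (fun m => algebraMap S T (a m)) p l) = (1 : T) ⊗ₜ[S] gen a p l := by
  unfold ChartB_bwd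
  rw [Chart.lift_gen]

/-- Base change of the chart. -/
noncomputable def Chart.baseChange :
    T ⊗[S] Chart a p ≃ₐ[T] Chart (fun m => algebraMap S T (a m)) p :=
  AlgEquiv.ofAlgHom (ChartB_fwd a p) (ChartB_bwd a p)
    (by
      apply Chart.algHom_ext
      intro l
      rw [AlgHom.comp_apply, AlgHom.id_apply, ChartB_bwd_gen, ChartB_fwd_gen])
    (by
      apply Algebra.TensorProduct.ext
      · ext
      · refine Chart.algHom_ext (T := T ⊗[S] Chart a p) a p fun l => ?_
        change ChartB_bwd (T := T) a p (ChartB_fwd (T := T) a p ((1 : T) ⊗ₜ[S] gen a p l)) =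
          (1 : T) ⊗ₜ[S] gen a p l
        rw [ChartB_fwd_gen, ChartB_bwd_gen])

theorem Chart.baseChange_gen (l : Fin (c + 2)) :
    Chart.baseChange (T := T) a p (1 ⊗ₜ gen a p l) =
      gen (fun m => algebraMap S T (a m)) p l := by
  unfold Chart.baseChange
  rw [AlgEquiv.ofAlgHom_apply]
  exact ChartB_fwd_gen a p l

end lift

private theorem ChartB_map_mem {T : Type} [CommRing T] (f : S →+* T) (a : Idx d → S)
    (p : Fin (c + 2)) {P : MvPolynomial (Fin (c + 2)) S} (hP : P ∈ chartIdeal a p) :
    MvPolynomial.map f P ∈ chartIdeal (fun m => f (a m)) p := by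
  have hle : chartIdeal a p ≤ (chartIdeal (fun m => f (a m)) p).comap (MvPolynomial.map f) := by
    unfold chartIdeal
    rw [Ideal.span_le]
    rintro Q (⟨i, rfl⟩ | rfl)
    · rw [SetLike.mem_coe, Ideal.mem_comap, form_map]
      exact Ideal.subset_span (Or.inl ⟨i, rfl⟩)
    · rw [SetLike.mem_coe, Ideal.mem_comap, map_sub, map_X, map_one]
      exact Ideal.subset_span (Or.inr rfl)
  exact hle hP

/-- The map of charts given by a ring homomorphism. -/
noncomputable def Chart.map {T : Type} [CommRing T] (f : S →+* T) (a : Idx d → S)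
    (p : Fin (c + 2)) : Chart a p →+* Chart (fun m => f (a m)) p :=
  Ideal.Quotient.lift (chartIdeal a p) ((Ideal.Quotient.mk (chartIdeal (fun m => f (a m)) p)).comp
    (MvPolynomial.map f)) (by
    intro P hP
    rw [RingHom.comp_apply, Ideal.Quotient.eq_zero_iff_mem]
    exact ChartB_map_mem f a p hP)

private theorem ChartB_map_mk {T : Type} [CommRing T] (f : S →+* T) (a : Idx d → S)
    (p : Fin (c + 2)) (P : MvPolynomial (Fin (c + 2)) S) :
    Chart.map f a p (Ideal.Quotient.mk (chartIdeal a p) P) =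
      Ideal.Quotient.mk (chartIdeal (fun m => f (a m)) p) (MvPolynomial.map f P) := by
  unfold Chart.map
  rw [Ideal.Quotient.lift_mk]
  rfl

theorem Chart.map_gen {T : Type} [CommRing T] (f : S →+* T) (a : Idx d → S)
    (p l : Fin (c + 2)) : Chart.map f a p (gen a p l) = gen (fun m => f (a m)) p l := by
  unfold gen
  rw [ChartB_map_mk, map_X]

theorem Chart.map_algebraMap {T : Type} [CommRing T] (f : S →+* T) (a : Idx d → S)
    (p : Fin (c + 2)) (s : S) : Chart.map f a p (algebraMap S (Chart a p) s) =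
      algebraMap T (Chart (fun m => f (a m)) p) (f s) := by
  have h1 : algebraMap S (Chart a p) s = Ideal.Quotient.mk (chartIdeal a p) (C s) := rfl
  have h2 : algebraMap T (Chart (fun m => f (a m)) p) (f s) =
    Ideal.Quotient.mk (chartIdeal (fun m => f (a m)) p) (C (f s)) := rfl
  rw [h1, h2, ChartB_map_mk, map_C]

/-- Every element of the chart over a localisation is a quotient: `z * s` comes from the chart over
`S`, with `s` a unit in `T`. -/
theorem Chart.map_surj {T : Type} [CommRing T] (f : S →+* T) (a : Idx d → S)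
    (p : Fin (c + 2)) (M : Set S)
    (h : ∀ b : T, ∃ (y : S) (s : S), s ∈ M ∧ IsUnit (f s) ∧ b * f s = f y)
    (hM : ∀ s ∈ M, ∀ s' ∈ M, s * s' ∈ M) (h1 : (1 : S) ∈ M)
    (z : Chart (fun m => f (a m)) p) : ∃ (y : Chart a p) (s : S), s ∈ M ∧ IsUnit (f s) ∧
      z * algebraMap T (Chart (fun m => f (a m)) p) (f s) = Chart.map f a p y := by
  obtain ⟨P, rfl⟩ := Ideal.Quotient.mk_surjective z
  have key : ∀ P : MvPolynomial (Fin (c + 2)) T, ∃ (Q : MvPolynomial (Fin (c + 2)) S) (s : S),
      s ∈ M ∧ IsUnit (f s) ∧ P * C (f s) = MvPolynomial.map f Q := by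
    intro P
    induction P using MvPolynomial.induction_on with
    | C b =>
      obtain ⟨y, s, hs, hu, he⟩ := h b
      exact ⟨C y, s, hs, hu, by rw [map_C, ← C_mul, he]⟩
    | add P1 P2 ih1 ih2 =>
      obtain ⟨Q1, s1, hs1, hu1, he1⟩ := ih1
      obtain ⟨Q2, s2, hs2, hu2, he2⟩ := ih2
      refine ⟨Q1 * C s2 + Q2 * C s1, s1 * s2, hM _ hs1 _ hs2, ?_, ?_⟩
      · rw [map_mul]
        exact hu1.mul hu2
      · rw [map_mul f, C_mul, map_add (MvPolynomial.map f), map_mul (MvPolynomial.map f),
          map_mul (MvPolynomial.map f), map_C, map_C, ← he1, ← he2]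
        ring
    | mul_X P l ih =>
      obtain ⟨Q, s, hs, hu, he⟩ := ih
      refine ⟨Q * X l, s, hs, hu, ?_⟩
      rw [map_mul, map_X, ← he]
      ring
  obtain ⟨Q, s, hs, hu, he⟩ := key P
  refine ⟨Ideal.Quotient.mk (chartIdeal a p) Q, s, hs, hu, ?_⟩
  rw [ChartB_map_mk, ← he, map_mul]
  rfl

/-- The kernel of the localisation: an element of the chart over `S` which vanishes over a
localisation `T` of `S` is killed by an element of `M`. -/
theorem Chart.map_ker {T : Type} [CommRing T] [Algebra S T] (M : Submonoid S)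
    [IsLocalization M T] (a : Idx d → S) (p : Fin (c + 2)) {y : Chart a p}
    (h : Chart.map (algebraMap S T) a p y = 0) : ∃ s ∈ M, algebraMap S (Chart a p) s * y = 0 := by
  obtain ⟨P, rfl⟩ := Ideal.Quotient.mk_surjective y
  rw [ChartB_map_mk, Ideal.Quotient.eq_zero_iff_mem] at h
  let _ : Algebra (MvPolynomial (Fin (c + 2)) S) (MvPolynomial (Fin (c + 2)) T) :=
    MvPolynomial.algebraMvPolynomial
  have hI : chartIdeal (fun m => algebraMap S T (a m)) p = (chartIdeal a p).map
      (algebraMap (MvPolynomial (Fin (c + 2)) S) (MvPolynomial (Fin (c + 2)) T)) := by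
    unfold chartIdeal
    rw [Ideal.map_span, Set.image_union, Set.image_singleton]
    congr 2
    · ext Q
      simp only [Set.mem_range, Set.mem_image, exists_exists_eq_and]
      constructor
      · rintro ⟨i, rfl⟩
        exact ⟨i, form_map (algebraMap S T) a i⟩
      · rintro ⟨i, rfl⟩
        exact ⟨i, (form_map (algebraMap S T) a i).symm⟩
    · rw [Set.singleton_eq_singleton_iff]
      change X p - 1 = MvPolynomial.map (algebraMap S T) (X p - 1)
      rw [map_sub, map_X, map_one]
  rw [hI, IsLocalization.mem_map_algebraMap_iff (M.map (C (σ := Fin (c + 2))))] at h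
  obtain ⟨⟨⟨Q, hQ⟩, ⟨m, hm⟩⟩, he⟩ := h
  obtain ⟨s, hs, rfl⟩ := hm
  have he' : MvPolynomial.map (algebraMap S T) (P * C s) = MvPolynomial.map (algebraMap S T) Q := by
    rw [map_mul]
    exact he
  obtain ⟨⟨m', hm'⟩, h2⟩ := (IsLocalization.eq_iff_exists (M.map (C (σ := Fin (c + 2))))
    (MvPolynomial (Fin (c + 2)) T)).1 he'
  obtain ⟨s', hs', rfl⟩ := hm'
  refine ⟨s' * s, M.mul_mem hs' hs, ?_⟩
  have h3 : algebraMap S (Chart a p) (s' * s) = Ideal.Quotient.mk (chartIdeal a p) (C (s' * s)) := rfl
  rw [h3, ← map_mul, Ideal.Quotient.eq_zero_iff_mem]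
  have h4 : C (s' * s) * P = C s' * Q := by
    rw [C_mul]
    have h5 : (C s' : MvPolynomial (Fin (c + 2)) S) * (P * C s) = C s' * Q := h2
    rw [← h5]
    ring
  rw [h4]
  exact Ideal.mul_mem_left _ _ hQ

end

end Pool.Agent.CIC
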