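import Pool.Agent.CIC.ChartB
import Pool.Agent.CAB.DerExt

/-!
# The universal family is generically smooth

Paper proof. Let `∑ b_i ∇F_i(x) = 0`, `x j ≠ 0`, `i₁` an index. `a` is algebraically independent over
`k₀`; extend it to a transcendence basis of `K` over `k₀`. In characteristic zero there is a
derivation `D` of `K` over `k₀` with prescribed values on a transcendence basis (on `k₀(basis)`
partial derivatives, then extend along the separable algebraic extension; compare CAB/DerExt.lean;
`exists_derivation_algInd` below), so there is `D` with `D (a ⟨i₁, d_{i₁} e_j⟩) = 1` and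
`D (a m) = 0` for all other `m`. Apply `D` to `F_i(x) = ∑_α a ⟨i, α⟩ x ^ α = 0`:
`∑_α D (a ⟨i, α⟩) x ^ α + ∑_l ∂_l F_i (x) D (x l) = 0`, and the first sum is `x j ^ (d i)` for
`i = i₁` and `0` for `i ≠ i₁`. Multiply with `b_i` and sum over `i`: `b_{i₁} x j ^ (d i₁) = 0`.
-/

namespace Pool.Agent.CIC

open MvPolynomial

variable {c : ℕ} {d : Fin c → ℕ}

/-- Lifting along a surjection with a nilpotent kernel. -/
private theorem SmG_lift {S K B : Type} [CommRing S] [CommRing K] [CommRing B] [Algebra S K]
    [Algebra.FormallySmooth S K] (φ : S →+* B) (g : B →+* K) (hg : Function.Surjective g)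
    (hn : IsNilpotent (RingHom.ker g)) (h : g.comp φ = algebraMap S K) :
    ∃ F : K →+* B, g.comp F = RingHom.id K ∧ F.comp (algebraMap S K) = φ := by
  letI : Algebra S B := φ.toAlgebra
  let g' : B →ₐ[S] K := { g with commutes' := fun s => RingHom.congr_fun h s }
  let F : K →ₐ[S] B := Algebra.FormallySmooth.liftOfSurjective (AlgHom.id S K) g' hg hn
  refine ⟨F.toRingHom, ?_, ?_⟩
  · ext x
    exact Algebra.FormallySmooth.liftOfSurjective_apply (AlgHom.id S K) g' hg hn x
  · ext s
    exact F.commutes s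

open scoped IntermediateField.algebraAdjoinAdjoin in
private theorem SmG_smooth {k₀ K ι : Type} [Field k₀] [CharZero k₀] [Field K] [Algebra k₀ K]
    (a : ι → K) : Algebra.FormallySmooth (Algebra.adjoin k₀ (Set.range a)) K := by
  have h1 : Algebra.FormallySmooth (Algebra.adjoin k₀ (Set.range a))
      (IntermediateField.adjoin k₀ (Set.range a)) :=
    .of_isLocalization (nonZeroDivisors _)
  have h2 : Algebra.FormallySmooth (IntermediateField.adjoin k₀ (Set.range a)) K := by
    obtain ⟨s, hs⟩ := exists_isTranscendenceBasis (IntermediateField.adjoin k₀ (Set.range a)) K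
    have hc : CharZero (IntermediateField.adjoin (IntermediateField.adjoin k₀ (Set.range a))
        (Set.range ((↑) : s → K))) := by
      have : CharZero K := charZero_of_injective_algebraMap (algebraMap k₀ K).injective
      infer_instance
    have halg := hs.isAlgebraic_field
    have hsep : Algebra.IsSeparable (IntermediateField.adjoin (IntermediateField.adjoin k₀ (Set.range a))
        (Set.range ((↑) : s → K))) K := inferInstance
    exact .of_algebraicIndependent_of_isSeparable hs.1
  exact .comp _ (IntermediateField.adjoin k₀ (Set.range a)) _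

private theorem SmG_gen {k₀ K ι : Type} [Field k₀] [CharZero k₀] [Field K] [Algebra k₀ K]
    {a : ι → K} (ha : AlgebraicIndependent k₀ a) (v : ι → K) (B : Type) [CommRing B] [Algebra k₀ B]
    (g : B →+* K) (inl : K →+* B) (ε : B) (snd : B →+ K) (hgl : ∀ x, g (inl x) = x) (hgε : g ε = 0)
    (hsq : ∀ x y, g x = 0 → g y = 0 → x * y = 0)
    (hsnd : ∀ x y, snd (x * y) = g x * snd y + g y * snd x) (hsndl : ∀ x, snd (inl x) = 0)
    (hsndε : snd ε = 1) (halg : ∀ r : k₀, algebraMap k₀ B r = inl (algebraMap k₀ K r)) :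
    ∃ D : Derivation k₀ K K, ∀ m, D (a m) = v m := by
  have hS := SmG_smooth (k₀ := k₀) a
  let ψ : MvPolynomial ι k₀ →ₐ[k₀] B := aeval fun i => inl (a i) + inl (v i) * ε
  let φ : Algebra.adjoin k₀ (Set.range a) →ₐ[k₀] B := ψ.comp ha.aevalEquiv.symm.toAlgHom
  have hφ : ∀ i, φ (ha.aevalEquiv (X i)) = inl (a i) + inl (v i) * ε := by
    intro i
    show ψ (ha.aevalEquiv.symm (ha.aevalEquiv (X i))) = _
    rw [AlgEquiv.symm_apply_apply]
    simp [ψ]
  have hX : ∀ i, ((ha.aevalEquiv (X i) : Algebra.adjoin k₀ (Set.range a)) : K) = a i := by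
    intro i
    simp
  have hgk : ∀ r : k₀, g (algebraMap k₀ B r) = algebraMap k₀ K r := fun r => by rw [halg, hgl]
  let g' : B →ₐ[k₀] K := { g with commutes' := hgk }
  have hcomp : g.comp (φ : _ →+* B) = algebraMap (Algebra.adjoin k₀ (Set.range a)) K := by
    have h1 : (g'.comp φ).comp ha.aevalEquiv.toAlgHom =
        (Subalgebra.val (Algebra.adjoin k₀ (Set.range a))).comp ha.aevalEquiv.toAlgHom := by
      apply MvPolynomial.algHom_ext
      intro i
      show g (φ (ha.aevalEquiv (X i))) = ((ha.aevalEquiv (X i) : Algebra.adjoin k₀ (Set.range a)) : K)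
      rw [hφ, hX, map_add, map_mul, hgl, hgε, mul_zero, add_zero]
    ext s
    have h2 : (g'.comp φ) (ha.aevalEquiv (ha.aevalEquiv.symm s)) =
        (Subalgebra.val (Algebra.adjoin k₀ (Set.range a))) (ha.aevalEquiv (ha.aevalEquiv.symm s)) :=
      AlgHom.congr_fun h1 (ha.aevalEquiv.symm s)
    rw [AlgEquiv.apply_symm_apply] at h2
    exact h2
  have hker : IsNilpotent (RingHom.ker g) := by
    refine ⟨2, ?_⟩
    rw [pow_two, Ideal.zero_eq_bot, eq_bot_iff, Ideal.mul_le]
    intro x hx y hy
    rw [RingHom.mem_ker] at hx hy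
    rw [Ideal.mem_bot]
    exact hsq x y hx hy
  obtain ⟨F, hF1, hF2⟩ := SmG_lift (S := Algebra.adjoin k₀ (Set.range a))
    (φ : Algebra.adjoin k₀ (Set.range a) →+* B) g (fun x => ⟨inl x, hgl x⟩) hker hcomp
  have hfst : ∀ x, g (F x) = x := fun x => RingHom.congr_fun hF1 x
  have hsc : ∀ c : k₀, F (algebraMap k₀ K c) = inl (algebraMap k₀ K c) := by
    intro c
    have h1 := RingHom.congr_fun hF2 (algebraMap k₀ _ c)
    rw [RingHom.comp_apply, ← IsScalarTower.algebraMap_apply] at h1
    rw [h1, ← halg]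
    exact φ.commutes c
  let Dl : K →ₗ[k₀] K :=
    { toFun := fun x => snd (F x)
      map_add' := fun x y => by rw [map_add, map_add]
      map_smul' := fun c x => by
        rw [Algebra.smul_def, map_mul, hsc, RingHom.id_apply, Algebra.smul_def, hsnd, hgl, hsndl,
          mul_zero, add_zero] }
  refine ⟨Derivation.mk' Dl ?_, ?_⟩
  · intro x y
    show snd (F (x * y)) = x • snd (F y) + y • snd (F x)
    rw [map_mul, hsnd, hfst, hfst, smul_eq_mul, smul_eq_mul]
  · intro m
    show snd (F (a m)) = v m
    have h1 := RingHom.congr_fun hF2 (ha.aevalEquiv (X m))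
    have h2 : algebraMap (Algebra.adjoin k₀ (Set.range a)) K (ha.aevalEquiv (X m)) = a m := hX m
    rw [RingHom.comp_apply, h2] at h1
    rw [h1]
    show snd (φ (ha.aevalEquiv (X m))) = v m
    rw [hφ, map_add, hsndl, hsnd, hgl, hgε, hsndε, zero_mul, add_zero, mul_one, zero_add]

theorem exists_derivation_algInd {k₀ K ι : Type} [Field k₀] [CharZero k₀] [Field K] [Algebra k₀ K]
    {a : ι → K} (ha : AlgebraicIndependent k₀ a) (v : ι → K) :
    ∃ D : Derivation k₀ K K, ∀ m, D (a m) = v m := by
  refine SmG_gen ha v (TrivSqZeroExt K K) (TrivSqZeroExt.fstHom K K K).toRingHom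
    (TrivSqZeroExt.inlHom K K) (TrivSqZeroExt.inr 1)
    { toFun := TrivSqZeroExt.snd, map_zero' := rfl, map_add' := fun _ _ => rfl } ?_ ?_ ?_ ?_ ?_ ?_ ?_
  · intro x
    rfl
  · rfl
  · intro x y hx hy
    have hx' : x.fst = 0 := hx
    have hy' : y.fst = 0 := hy
    ext <;> simp [hx', hy']
  · intro x y
    show (x * y).snd = x.fst * y.snd + y.fst * x.snd
    rw [TrivSqZeroExt.snd_mul]
    simp [mul_comm]
  · intro x
    rfl
  · rfl
  · intro r
    rfl

/-- The forms with the coefficients `a` are smooth at all nonzero common zeros over `K`. -/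
def Smo {K : Type} [Field K] (a : Idx d → K) : Prop :=
  ∀ x : Fin (c + 2) → K, x ≠ 0 → (∀ i, eval x (form a i) = 0) →
    LinearIndependent K fun i : Fin c => fun l : Fin (c + 2) => eval x (pderiv l (form a i))

/-- chain rule -/
private theorem SmG_chain {k₀ K σ : Type} [Fintype σ] [Field k₀] [Field K] [Algebra k₀ K]
    (D : Derivation k₀ K K) (x : σ → K) (Q : MvPolynomial σ k₀) :
    D (aeval x Q) = ∑ l, aeval x (pderiv l Q) * D (x l) := by
  classical
  induction Q using MvPolynomial.induction_on with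
  | C c => simp
  | add p q hp hq =>
    rw [map_add, map_add, hp, hq, ← Finset.sum_add_distrib]
    refine Finset.sum_congr rfl fun l _ => ?_
    rw [map_add, map_add]
    ring
  | mul_X p i hp =>
    rw [map_mul, aeval_X, Derivation.leibniz, hp]
    have h1 : ∀ l, aeval x (pderiv l (p * X i)) * D (x l) =
        x i * (aeval x (pderiv l p) * D (x l)) + (if l = i then aeval x p * D (x l) else 0) := by
      intro l
      rw [Derivation.leibniz, map_add, pderiv_X]
      by_cases hl : l = i
      · subst hl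
        simp
        ring
      · simp [hl, Pi.single_apply, Ne.symm hl]
        ring
    rw [Finset.sum_congr rfl fun l _ => h1 l, Finset.sum_add_distrib, ← Finset.mul_sum,
      Finset.sum_ite_eq' Finset.univ i, if_pos (Finset.mem_univ i), smul_eq_mul, smul_eq_mul]
    ring

private theorem SmG_mon {k₀ K : Type} [Field k₀] [Field K] [Algebra k₀ K] {n : ℕ}
    (D : Derivation k₀ K K) (x : Fin n → K) (α : Fin n → ℕ) :
    D (∏ l, x l ^ α l) =
      ∑ l, eval x (pderiv l (∏ l', X l' ^ α l' : MvPolynomial (Fin n) K)) * D (x l) := by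
  have h1 := SmG_chain D x (∏ l', X l' ^ α l' : MvPolynomial (Fin n) k₀)
  have h2 : aeval x (∏ l', X l' ^ α l' : MvPolynomial (Fin n) k₀) = ∏ l, x l ^ α l := by
    rw [map_prod]
    simp
  rw [h2] at h1
  rw [h1]
  refine Finset.sum_congr rfl fun l _ => ?_
  have h3 : (∏ l', X l' ^ α l' : MvPolynomial (Fin n) K) =
      MvPolynomial.map (algebraMap k₀ K) (∏ l', X l' ^ α l' : MvPolynomial (Fin n) k₀) := by
    rw [map_prod]
    simp
  rw [h3, pderiv_map, eval_map, aeval_def]

theorem smo_of_algInd {k₀ K : Type} [Field k₀] [CharZero k₀] [Field K] [Algebra k₀ K]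
    {a : Idx d → K} (ha : AlgebraicIndependent k₀ a) : Smo a := by
  classical
  intro x hx hz
  rw [Fintype.linearIndependent_iff]
  intro b hb i₁
  obtain ⟨j, hj⟩ : ∃ j, x j ≠ 0 := by
    by_contra hcon
    push Not at hcon
    exact hx (funext hcon)
  let α₁ : Mon c (d i₁) := ⟨fun l => if l = j then d i₁ else 0, by simp⟩
  obtain ⟨D, hD⟩ := exists_derivation_algInd ha (fun m => if m = ⟨i₁, α₁⟩ then (1 : K) else 0)
  have hpd : ∀ (i : Fin c) (l : Fin (c + 2)), eval x (pderiv l (form a i)) =
      ∑ α : Mon c (d i), a ⟨i, α⟩ * eval x (pderiv l (∏ l', X l' ^ α.1 l')) := by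
    intro i l
    unfold form
    rw [map_sum, map_sum]
    refine Finset.sum_congr rfl fun α _ => ?_
    rw [Derivation.leibniz, pderiv_C]
    simp
  have key : ∀ i : Fin c, (∑ α : Mon c (d i), D (a ⟨i, α⟩) * ∏ l, x l ^ α.1 l) +
      ∑ l, eval x (pderiv l (form a i)) * D (x l) = 0 := by
    intro i
    have h1 := congrArg D (hz i)
    rw [form_eval, map_sum, map_zero] at h1
    rw [← h1]
    have h2 : ∀ α : Mon c (d i), D (a ⟨i, α⟩ * ∏ l, x l ^ α.1 l) =
        D (a ⟨i, α⟩) * (∏ l, x l ^ α.1 l) +
          ∑ l, a ⟨i, α⟩ * eval x (pderiv l (∏ l', X l' ^ α.1 l')) * D (x l) := by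
      intro α
      rw [Derivation.leibniz, SmG_mon D x α.1, smul_eq_mul, smul_eq_mul, Finset.mul_sum]
      rw [add_comm, mul_comm (∏ l, x l ^ α.1 l)]
      congr 1
      refine Finset.sum_congr rfl fun l _ => ?_
      ring
    rw [Finset.sum_congr rfl fun α _ => h2 α, Finset.sum_add_distrib]
    congr 1
    rw [Finset.sum_comm]
    refine Finset.sum_congr rfl fun l _ => ?_
    rw [hpd, Finset.sum_mul]
  have hS : ∀ i : Fin c, (∑ α : Mon c (d i), D (a ⟨i, α⟩) * ∏ l, x l ^ α.1 l) =
      if i = i₁ then x j ^ d i₁ else 0 := by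
    intro i
    by_cases hi : i = i₁
    · subst hi
      rw [if_pos rfl, Finset.sum_eq_single α₁]
      · rw [hD, if_pos rfl, one_mul, Finset.prod_eq_single j]
        · simp [α₁]
        · intro l _ hl
          simp [α₁, hl]
        · intro h
          exact absurd (Finset.mem_univ _) h
      · intro α _ hα
        rw [hD, if_neg, zero_mul]
        intro h
        apply hα
        have := Sigma.mk.inj_iff.1 h
        exact eq_of_heq this.2
      · intro h
        exact absurd (Finset.mem_univ _) h
    · rw [if_neg hi]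
      refine Finset.sum_eq_zero fun α _ => ?_
      rw [hD, if_neg, zero_mul]
      intro h
      exact hi (Sigma.mk.inj_iff.1 h).1
  have hb' : ∀ l, ∑ i, b i * eval x (pderiv l (form a i)) = 0 := by
    intro l
    have h1 := congrFun hb l
    simpa [Finset.sum_apply] using h1
  have h4 : ∑ i, b i * ((∑ α : Mon c (d i), D (a ⟨i, α⟩) * ∏ l, x l ^ α.1 l) +
      ∑ l, eval x (pderiv l (form a i)) * D (x l)) = 0 :=
    Finset.sum_eq_zero fun i _ => by rw [key, mul_zero]
  have h5 : ∑ i, b i * ∑ l, eval x (pderiv l (form a i)) * D (x l) = 0 := by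
    have h6 : ∀ i, b i * ∑ l, eval x (pderiv l (form a i)) * D (x l) =
        ∑ l, (b i * eval x (pderiv l (form a i))) * D (x l) := by
      intro i
      rw [Finset.mul_sum]
      refine Finset.sum_congr rfl fun l _ => ?_
      ring
    rw [Finset.sum_congr rfl fun i _ => h6 i, Finset.sum_comm]
    refine Finset.sum_eq_zero fun l _ => ?_
    rw [← Finset.sum_mul, hb', zero_mul]
  simp only [mul_add, Finset.sum_add_distrib, h5, add_zero, hS, mul_ite, mul_zero,
    Finset.sum_ite_eq', Finset.mem_univ, if_true] at h4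
  rcases mul_eq_zero.1 h4 with h | h
  · exact h
  · exact absurd h (pow_ne_zero _ hj)

end Pool.Agent.CIC
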