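import Mathlib
import Pool.Agent.TRIP.Idl

/-!
# Complete intersection curves: definitions

* `Mon c e`: the exponents of the monomials of degree `e` in `X_0, ..., X_{c+1}`;
  `Idx d`: the indices of the coefficients of `c` forms of degrees `d_1, ..., d_c`.
* `form a i`: the `i`-th form with the coefficients `a`.
* `Chart a j`: the coordinate ring of the affine scheme `F_1 = ... = F_c = 0`, `X_j = 1`.
* `CIRing`: a commutative ring `R` with coefficients, i.e. a family of complete intersections in
  `ℙ^{c+1}` over `Spec R`.
* `CIRing.adjoin`: the same family over the coordinate ring of the affine curve `X_0 = 1`; the `r`-th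
  iterate is the family over the `r`-fold fibre power (`r` marked points).
* `localFactor`: `P_{y,1}(q_y ^ (-s))⁻¹ = exp (∑_{j ≥ 1} a_j q_y ^ (-js) / j)`, where
  `a_j = q_y ^ j + 1 - N_j` and `N_j` is the number of the points of the projective curve over the
  extension of degree `j` of the residue field.
-/

namespace Pool.Agent.CIC

/-- The exponents `α` of the monomials `X ^ α` of degree `e` in `X_0, ..., X_{c+1}`. -/
abbrev Mon (c e : ℕ) : Type := {α : Fin (c + 2) → ℕ // ∑ l, α l = e}

/-- The indices of the coefficients of `c` forms of degrees `d_i` in `X_0, ..., X_{c+1}`. -/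
abbrev Idx {c : ℕ} (d : Fin c → ℕ) : Type := Σ i : Fin c, Mon c (d i)

instance (c e : ℕ) : Finite (Mon c e) := by
  refine Finite.of_injective (β := Fin (c + 2) → Fin (e + 1))
    (fun α l => ⟨α.1 l, Nat.lt_succ_of_le ((Finset.single_le_sum (fun _ _ => Nat.zero_le _)
      (Finset.mem_univ l)).trans α.2.le)⟩) ?_
  intro α β h
  apply Subtype.ext
  funext l
  have := congrFun h l
  simpa using this

noncomputable instance (c e : ℕ) : Fintype (Mon c e) := Fintype.ofFinite _

section forms

variable {S : Type*} [CommRing S] {c : ℕ} {d : Fin c → ℕ}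

/-- The form of degree `d i` in `X_0, ..., X_{c+1}` with coefficients `a`. -/
noncomputable def form (a : Idx d → S) (i : Fin c) : MvPolynomial (Fin (c + 2)) S :=
  ∑ α : Mon c (d i), MvPolynomial.C (a ⟨i, α⟩) * ∏ l, MvPolynomial.X l ^ α.1 l

/-- The ideal of the affine scheme `F = 0`, `X_j = 1`. -/
noncomputable def chartIdeal (a : Idx d → S) (j : Fin (c + 2)) : Ideal (MvPolynomial (Fin (c + 2)) S) :=
  Ideal.span (Set.range (form a) ∪ {MvPolynomial.X j - 1})

/-- The coordinate ring of the affine scheme `F = 0`, `X_j = 1`. -/
abbrev Chart (a : Idx d → S) (j : Fin (c + 2)) : Type _ :=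
  MvPolynomial (Fin (c + 2)) S ⧸ chartIdeal a j

end forms

/-- A commutative ring with the coefficients of `c` forms: a family of complete intersections. -/
structure CIRing {c : ℕ} (d : Fin c → ℕ) where
  /-- the ring -/
  R : Type
  /-- its ring structure -/
  [ring : CommRing R]
  /-- the coefficients -/
  a : Idx d → R

attribute [instance] CIRing.ring

section rings

variable {A : Type} [CommRing A] {c : ℕ} {d : Fin c → ℕ}

/-- `x` is a common zero of the forms with the coefficients `a`. -/
def IsZero (a : Idx d → A) (x : Fin (c + 2) → A) : Prop :=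
  ∀ i, MvPolynomial.eval x (form a i) = 0

/-- The gradient of the `i`-th form at `x`. -/
noncomputable def grad (a : Idx d → A) (x : Fin (c + 2) → A) (i : Fin c) : Fin (c + 2) → A :=
  fun l => MvPolynomial.eval x (MvPolynomial.pderiv l (form a i))

/-- The family with the coefficients `a` over the coordinate ring
`A[X_0, ..., X_{c+1}] / (F_1, ..., F_c, X_0 - 1)`. -/
noncomputable def chartFam (a : Idx d → A) : CIRing d where
  R := Chart a 0
  a := fun m => algebraMap A (Chart a 0) (a m)

/-- The family with the coefficients `a` over `A[1/D]`. -/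
noncomputable def awayFam (D : A) (a : Idx d → A) : CIRing d where
  R := Localization.Away D
  a := fun m => algebraMap A (Localization.Away D) (a m)

/-- `q_y`: the number of elements of the residue field at the closed point `m` of `Spec A`. -/
noncomputable def qy {R : Type*} [CommRing R] (m : MaximalSpectrum R) : ℕ :=
  Nat.card (R ⧸ m.asIdeal)

/-- The number of the points of the projective curve over the extension of degree `j` of the finite
field `k`: the number of the nonzero common zeros with coordinates in `k̄` fixed by the `j`-th power of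
the Frobenius, divided by `q ^ j - 1`. -/
noncomputable def NjF {k : Type} [Field k] (a : Idx d → k) (j : ℕ) : ℕ :=
  Nat.card {x : Fin (c + 2) → AlgebraicClosure k // x ≠ 0 ∧ (∀ l, x l ^ (Nat.card k ^ j) = x l) ∧
    IsZero (fun n => algebraMap k (AlgebraicClosure k) (a n)) x} / (Nat.card k ^ j - 1)

/-- The number of the points of the projective curve over the extension of degree `j` of the
residue field of `m`. -/
noncomputable def NjM (a : Idx d → A) (m : MaximalSpectrum A) (j : ℕ) : ℕ :=
  letI := Ideal.Quotient.field m.asIdeal
  NjF (fun n => Ideal.Quotient.mk m.asIdeal (a n)) j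

end rings

/-- The affine curve `X_0 = 1` over the field `K` is integral and the divisor class group of its
function field over `K` is isomorphic to `ℤ ^ n`. -/
def CurveRank {K : Type} [Field K] {c : ℕ} {d : Fin c → ℕ} (a : Idx d → K) (n : ℕ) : Prop :=
  TRIP.PicRank K (Chart a 0) n

section families

variable {c : ℕ} {d : Fin c → ℕ}

/-- Adjoin a point of the affine curve: the family over the coordinate ring
`R[X_0, ..., X_{c+1}] / (F_1, ..., F_c, X_0 - 1)`. -/
noncomputable def CIRing.adjoin (S : CIRing d) : CIRing d := chartFam S.a

/-- The family over the `r`-fold fibre power of the affine curve (`r` marked points). -/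
noncomputable def CIRing.power (S : CIRing d) (r : ℕ) : CIRing d := CIRing.adjoin^[r] S

/-- The universal family over `R₀[u, 1/D]`. -/
noncomputable def family {R₀ : Type} [CommRing R₀] (D : MvPolynomial (Idx d) R₀) : CIRing d :=
  awayFam D MvPolynomial.X

/-- The family is smooth: for every homomorphism to a field, the gradients of the forms are linearly
independent at all nonzero common zeros. -/
def CIRing.IsSmooth (S : CIRing d) : Prop :=
  ∀ (k : Type) [Field k] (ψ : S.R →+* k) (x : Fin (c + 2) → k), x ≠ 0 →
    IsZero (fun m => ψ (S.a m)) x → LinearIndependent k (grad (fun m => ψ (S.a m)) x)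

/-- `S.R` is a domain, and for every fraction field `K` of `S.R` the affine curve over `K` is
integral and the divisor class group of its function field over `K` is isomorphic to `ℤ ^ n`. -/
def CIRing.HasPicRank (S : CIRing d) (n : ℕ) : Prop :=
  IsDomain S.R ∧ ∀ (K : Type) [Field K] [Algebra S.R K] [IsFractionRing S.R K],
    CurveRank (fun m => algebraMap S.R K (S.a m)) n

/-- The trace of the `j`-th power of the Frobenius on `H¹` at `m`. -/
noncomputable def CIRing.trj (S : CIRing d) (m : MaximalSpectrum S.R) (j : ℕ) : ℤ :=
  (qy m : ℤ) ^ j + 1 - NjM S.a m j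

/-- The local factor `P_{y,1}(q_y^{-s})⁻¹ = exp (∑_{j ≥ 1} a_j q_y^{-js} / j)`. -/
noncomputable def CIRing.localFactor (S : CIRing d) (m : MaximalSpectrum S.R) (s : ℂ) : ℂ :=
  Complex.exp (∑' j : ℕ, (S.trj m (j + 1) : ℂ) * ((qy m : ℂ) ^ (-s)) ^ (j + 1) / (j + 1))

/-- The product of the local factors over all maximal ideals of `S.R` converges unconditionally for
`Re s > β`, it is equal there to a function which is meromorphic on `Re s > α`, and the order of
this function at `z` is `n`. -/
def CIRing.EulerOrder (S : CIRing d) (α β : ℝ) (z : ℂ) (n : ℕ) : Prop :=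
  ∃ Φ : ℂ → ℂ, MeromorphicOn Φ {s : ℂ | α < s.re} ∧
    (∀ s : ℂ, β < s.re → HasProd (fun m : MaximalSpectrum S.R => S.localFactor m s) (Φ s)) ∧
    meromorphicOrderAt Φ z = ((n : ℤ) : WithTop ℤ)

end families

end Pool.Agent.CIC
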